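import Mathlib

set_option autoImplicit false

namespace Pool.Agent.SmallMod59

/-- casting a divisor of a bad number that `p` does not divide -/
theorem cast_ne {p B : ℕ} (hB : ¬ p ∣ B) (c : ℕ) (hc : c ∣ B) : ((c : ℕ) : ZMod p) ≠ 0 := by
  intro h
  rw [ZMod.natCast_eq_zero_iff] at h
  exact hB (h.trans hc)

/-- If `c = u + u⁻¹` in an extension with `u` of order `M` then `p ≡ ± 1 mod M`. -/
theorem order_pm {p : ℕ} [hp : Fact p.Prime] (c : ZMod p) {F : Type} [Field F] [Algebra (ZMod p) F]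
    (u : F) (hu : u ≠ 0) (hc : u + u⁻¹ = algebraMap (ZMod p) F c) :
    orderOf u ∣ p - 1 ∨ orderOf u ∣ p + 1 := by
  have : CharP F p := charP_of_injective_algebraMap (algebraMap (ZMod p) F).injective p
  have h1 : u ^ p + (u⁻¹) ^ p = u + u⁻¹ := by
    rw [← add_pow_char, hc, ← map_pow, ZMod.pow_card]
  have h2 : (u ^ p - u) * (u ^ p - u⁻¹) = 0 := by
    have h3 : (u⁻¹) ^ p = (u ^ p)⁻¹ := inv_pow u p
    rw [h3] at h1
    have hup : u ^ p ≠ 0 := pow_ne_zero _ hu
    field_simp at h1 ⊢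
    linear_combination h1
  rcases mul_eq_zero.mp h2 with h | h
  · left
    apply orderOf_dvd_of_pow_eq_one
    have : u ^ (p - 1) * u = 1 * u := by
      rw [← pow_succ, Nat.sub_add_cancel hp.out.one_lt.le, one_mul]
      exact sub_eq_zero.mp h
    exact mul_right_cancel₀ hu this
  · right
    apply orderOf_dvd_of_pow_eq_one
    rw [pow_succ, sub_eq_zero.mp h, inv_mul_cancel₀ hu]

/-- existence of `u` in the algebraic closure -/
theorem exists_u {p : ℕ} [hp : Fact p.Prime] (c : ZMod p) :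
    ∃ u : AlgebraicClosure (ZMod p), u ≠ 0 ∧
      u + u⁻¹ = algebraMap (ZMod p) (AlgebraicClosure (ZMod p)) c := by
  set C := algebraMap (ZMod p) (AlgebraicClosure (ZMod p)) c with hC
  obtain ⟨u, hu⟩ := IsAlgClosed.exists_root
    (Polynomial.X ^ 2 - Polynomial.C C * Polynomial.X + 1 : Polynomial (AlgebraicClosure (ZMod p)))
    (by
      have : (Polynomial.X ^ 2 - Polynomial.C C * Polynomial.X + 1 :
        Polynomial (AlgebraicClosure (ZMod p))).degree = 2 := by
        compute_degree!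
      rw [this]; norm_num)
  have h : u ^ 2 - C * u + 1 = 0 := by
    simpa [Polynomial.IsRoot] using hu
  have hu0 : u ≠ 0 := by
    rintro rfl
    simp at h
  refine ⟨u, hu0, ?_⟩
  field_simp
  linear_combination h

theorem order_three {F : Type} [Field F] (z : F) (h : z ^ 2 + z + 1 = 0) (h3 : (3 : F) ≠ 0) :
    orderOf z = 3 := by
  apply orderOf_eq_prime (p := 3)
  · linear_combination (z - 1) * h
  · rintro rfl
    apply h3
    linear_combination h

theorem order_five {F : Type} [Field F] (z : F) (h : z ^ 4 + z ^ 3 + z ^ 2 + z + 1 = 0)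
    (h5 : (5 : F) ≠ 0) : orderOf z = 5 := by
  have : Fact (Nat.Prime 5) := ⟨by norm_num⟩
  apply orderOf_eq_prime (p := 5)
  · linear_combination (z - 1) * h
  · rintro rfl
    apply h5
    linear_combination h

theorem order_seven {F : Type} [Field F] (z : F)
    (h : z ^ 6 + z ^ 5 + z ^ 4 + z ^ 3 + z ^ 2 + z + 1 = 0)
    (h7 : (7 : F) ≠ 0) : orderOf z = 7 := by
  have : Fact (Nat.Prime 7) := ⟨by norm_num⟩
  apply orderOf_eq_prime (p := 7)
  · linear_combination (z - 1) * h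
  · rintro rfl
    apply h7
    linear_combination h

theorem mod_of_dvd {p M : ℕ} (hp : 0 < p) (hM : 1 < M) (h : M ∣ p - 1 ∨ M ∣ p + 1) :
    p % M = 1 ∨ p % M = M - 1 := by
  rcases h with h | h
  · left
    obtain ⟨c, hc⟩ := h
    have : p = 1 + M * c := by omega
    rw [this, Nat.add_mul_mod_self_left, Nat.mod_eq_of_lt hM]
  · right
    obtain ⟨c, hc⟩ := h
    cases c with
    | zero => omega
    | succ c =>
      have : p = (M - 1) + M * c := by
        have : M * (c + 1) = M * c + M := by ring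
        omega
      rw [this, Nat.add_mul_mod_self_left, Nat.mod_eq_of_lt (by omega)]

/-- `2cos(2π/9)`-type elements -/
theorem pm_nine {p : ℕ} [hp : Fact p.Prime] (h3 : (3 : ZMod p) ≠ 0) (c : ZMod p)
    (hc : c ^ 3 - 3 * c + 1 = 0) : p % 9 = 1 ∨ p % 9 = 8 := by
  obtain ⟨u, hu0, hu⟩ := exists_u c
  have h3' : (3 : AlgebraicClosure (ZMod p)) ≠ 0 := by
    have := (map_ne_zero (algebraMap (ZMod p) (AlgebraicClosure (ZMod p)))).mpr h3
    rwa [map_ofNat] at this
  have hC : (u + u⁻¹) ^ 3 - 3 * (u + u⁻¹) + 1 = 0 := by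
    rw [hu]
    have := congrArg (algebraMap (ZMod p) (AlgebraicClosure (ZMod p))) hc
    simp only [map_add, map_sub, map_mul, map_pow, map_one, map_zero, map_ofNat] at this
    exact this
  have hz : (u ^ 3) ^ 2 + u ^ 3 + 1 = 0 := by
    field_simp at hC
    linear_combination hC
  have ho3 := order_three _ hz h3'
  have ho : orderOf u = 9 := by
    have h9 : u ^ (3 ^ (1 + 1)) = 1 := by
      have := pow_orderOf_eq_one (u ^ 3)
      rw [ho3, ← pow_mul] at this
      norm_num at this ⊢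
      exact this
    have h31 : ¬ u ^ (3 ^ 1) = 1 := by
      intro h
      norm_num at h
      rw [h] at ho3
      simp at ho3
    have := orderOf_eq_prime_pow h31 h9
    norm_num at this
    exact this
  have := order_pm c u hu0 hu
  rw [ho] at this
  exact mod_of_dvd hp.out.pos (by norm_num) this

/-- `2cos(2π/7)`-type elements -/
theorem pm_seven {p : ℕ} [hp : Fact p.Prime] (h7 : (7 : ZMod p) ≠ 0) (c : ZMod p)
    (hc : c ^ 3 + c ^ 2 - 2 * c - 1 = 0) : p % 7 = 1 ∨ p % 7 = 6 := by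
  obtain ⟨u, hu0, hu⟩ := exists_u c
  have h7' : (7 : AlgebraicClosure (ZMod p)) ≠ 0 := by
    have := (map_ne_zero (algebraMap (ZMod p) (AlgebraicClosure (ZMod p)))).mpr h7
    rwa [map_ofNat] at this
  have hC : (u + u⁻¹) ^ 3 + (u + u⁻¹) ^ 2 - 2 * (u + u⁻¹) - 1 = 0 := by
    rw [hu]
    have := congrArg (algebraMap (ZMod p) (AlgebraicClosure (ZMod p))) hc
    simp only [map_add, map_sub, map_mul, map_pow, map_one, map_zero, map_ofNat] at this
    exact this
  have hz : u ^ 6 + u ^ 5 + u ^ 4 + u ^ 3 + u ^ 2 + u + 1 = 0 := by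
    field_simp at hC
    linear_combination hC
  have ho := order_seven _ hz h7'
  have := order_pm c u hu0 hu
  rw [ho] at this
  exact mod_of_dvd hp.out.pos (by norm_num) this

/-- `2cos(2π/15)`-type elements -/
theorem pm_fifteen {p : ℕ} [hp : Fact p.Prime] (h3 : (3 : ZMod p) ≠ 0) (h5 : (5 : ZMod p) ≠ 0)
    (c : ZMod p) (hc3 : (c ^ 3 - 3 * c) ^ 2 + (c ^ 3 - 3 * c) - 1 = 0)
    (hc5 : c ^ 5 - 5 * c ^ 3 + 5 * c + 1 = 0) : p % 15 = 1 ∨ p % 15 = 14 := by
  obtain ⟨u, hu0, hu⟩ := exists_u c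
  have h3' : (3 : AlgebraicClosure (ZMod p)) ≠ 0 := by
    have := (map_ne_zero (algebraMap (ZMod p) (AlgebraicClosure (ZMod p)))).mpr h3
    rwa [map_ofNat] at this
  have h5' : (5 : AlgebraicClosure (ZMod p)) ≠ 0 := by
    have := (map_ne_zero (algebraMap (ZMod p) (AlgebraicClosure (ZMod p)))).mpr h5
    rwa [map_ofNat] at this
  have hC3 : ((u + u⁻¹) ^ 3 - 3 * (u + u⁻¹)) ^ 2 + ((u + u⁻¹) ^ 3 - 3 * (u + u⁻¹)) - 1 = 0 := by
    rw [hu]
    have := congrArg (algebraMap (ZMod p) (AlgebraicClosure (ZMod p))) hc3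
    simp only [map_add, map_sub, map_mul, map_pow, map_one, map_zero, map_ofNat] at this
    exact this
  have hC5 : (u + u⁻¹) ^ 5 - 5 * (u + u⁻¹) ^ 3 + 5 * (u + u⁻¹) + 1 = 0 := by
    rw [hu]
    have := congrArg (algebraMap (ZMod p) (AlgebraicClosure (ZMod p))) hc5
    simp only [map_add, map_sub, map_mul, map_pow, map_one, map_zero, map_ofNat] at this
    exact this
  have hz5 : (u ^ 3) ^ 4 + (u ^ 3) ^ 3 + (u ^ 3) ^ 2 + u ^ 3 + 1 = 0 := by
    field_simp at hC3
    linear_combination hC3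
  have hz3 : (u ^ 5) ^ 2 + u ^ 5 + 1 = 0 := by
    field_simp at hC5
    linear_combination hC5
  have ho3 := order_three _ hz3 h3'
  have ho5 := order_five _ hz5 h5'
  have h1 : 3 ∣ orderOf u := by
    rw [← ho3]; exact orderOf_pow_dvd 5
  have h2 : 5 ∣ orderOf u := by
    rw [← ho5]; exact orderOf_pow_dvd 3
  have h15 : 15 ∣ orderOf u := by
    have := Nat.Coprime.mul_dvd_of_dvd_of_dvd (by norm_num : Nat.Coprime 3 5) h1 h2
    simpa using this
  have := order_pm c u hu0 hu
  have h' : 15 ∣ p - 1 ∨ 15 ∣ p + 1 := by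
    rcases this with h | h
    · exact Or.inl (h15.trans h)
    · exact Or.inr (h15.trans h)
  exact mod_of_dvd hp.out.pos (by norm_num) h'

theorem two_self : ((2 : ℕ) : ZMod 2) = 0 := by decide
theorem three_self : ((3 : ℕ) : ZMod 3) = 0 := by decide
theorem two_not_sq : ¬ IsSquare ((2 : ℕ) : ZMod 3) := by decide
theorem one_sq : IsSquare ((1 : ℕ) : ZMod 3) := by decide

theorem pm_eight {p : ℕ} [hp : Fact p.Prime] (h2 : (2 : ZMod p) ≠ 0) (h : IsSquare (2 : ZMod p)) :
    p % 8 = 1 ∨ p % 8 = 7 := by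
  apply (ZMod.exists_sq_eq_two_iff _).mp h
  rintro rfl
  exact h2 (by exact_mod_cast two_self)

theorem pm_twelve {p : ℕ} [hp : Fact p.Prime] (h2 : (2 : ZMod p) ≠ 0) (h3 : (3 : ZMod p) ≠ 0)
    (h : IsSquare (3 : ZMod p)) : p % 12 = 1 ∨ p % 12 = 11 := by
  have : Fact (Nat.Prime 3) := ⟨by norm_num⟩
  have hp2 : p ≠ 2 := by rintro rfl; exact h2 (by exact_mod_cast two_self)
  have hp3 : p ≠ 3 := by rintro rfl; exact h3 (by exact_mod_cast three_self)
  have hodd : p % 2 = 1 := (hp.out.eq_two_or_odd).resolve_left hp2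
  have h3p : ¬ 3 ∣ p := by
    intro hd
    exact hp3 ((Nat.prime_dvd_prime_iff_eq (by norm_num) hp.out).mp hd).symm
  have hcast : ((3 : ℕ) : ZMod p) = 3 := by norm_num
  have hmod3 : ∀ r : ℕ, p % 3 = r → ((p : ℕ) : ZMod 3) = ((r : ℕ) : ZMod 3) := by
    intro r hr
    rw [← hr, ZMod.natCast_mod]
  have h4 : p % 4 = 1 ∨ p % 4 = 3 := by omega
  rcases h4 with h4 | h4
  · have := (ZMod.exists_sq_eq_prime_iff_of_mod_four_eq_one (p := p) (q := 3) h4 (by norm_num)).mp
      (by rw [hcast]; exact h)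
    have hr : p % 3 = 1 ∨ p % 3 = 2 := by omega
    rcases hr with hr | hr
    · left; omega
    · exfalso
      rw [hmod3 2 hr] at this
      exact two_not_sq this
  · have := (ZMod.exists_sq_eq_prime_iff_of_mod_four_eq_three (p := p) (q := 3) h4 (by norm_num)
      hp3).mp (by rw [hcast]; exact h)
    have hr : p % 3 = 1 ∨ p % 3 = 2 := by omega
    rcases hr with hr | hr
    · exfalso
      rw [hmod3 1 hr] at this
      exact this one_sq
    · right; omega

theorem pm_twentyone {p : ℕ} [hp : Fact p.Prime] (h2 : (2 : ZMod p) ≠ 0) (h3 : (3 : ZMod p) ≠ 0)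
    (h7 : (7 : ZMod p) ≠ 0)
    (h : IsSquare (21 : ZMod p)) (h7' : p % 7 = 1 ∨ p % 7 = 6) : p % 21 = 1 ∨ p % 21 = 20 := by
  have hp2 : p ≠ 2 := by rintro rfl; exact h2 (by exact_mod_cast two_self)
  have hp3 : p ≠ 3 := by rintro rfl; exact h3 (by exact_mod_cast three_self)
  have hodd : p % 2 = 1 := (hp.out.eq_two_or_odd).resolve_left hp2
  have h3p : ¬ 3 ∣ p := by
    intro hd
    exact hp3 ((Nat.prime_dvd_prime_iff_eq (by norm_num) hp.out).mp hd).symm
  have h21 : ((21 : ℤ) : ZMod p) ≠ 0 := by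
    have : ((21 : ℤ) : ZMod p) = 3 * 7 := by push_cast; norm_num
    rw [this]; exact mul_ne_zero h3 h7
  have hl : legendreSym p 21 = 1 := by
    rw [legendreSym.eq_one_iff p h21]
    push_cast
    exact h
  have hj : jacobiSym ((21 : ℕ) : ℤ) p = 1 := by
    rw [← jacobiSym.legendreSym.to_jacobiSym]
    exact_mod_cast hl
  rw [jacobiSym.quadratic_reciprocity_one_mod_four (a := 21) (b := p) (by norm_num)
    (Nat.odd_iff.mpr hodd)] at hj
  rw [jacobiSym.mod_left] at hj
  have hcase : p % 21 = 1 ∨ p % 21 = 8 ∨ p % 21 = 13 ∨ p % 21 = 20 := by omega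
  have hcast : ((p : ℤ) % ((21 : ℕ) : ℤ)) = ((p % 21 : ℕ) : ℤ) := by push_cast; rfl
  rw [hcast] at hj
  rcases hcase with h | h | h | h
  · exact Or.inl h
  · exfalso; rw [h] at hj; revert hj; norm_num
  · exfalso; rw [h] at hj; revert hj; norm_num
  · exact Or.inr h

end Pool.Agent.SmallMod59
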