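import Mathlib
import Pool.Agent.SmallMod59.Basic

set_option autoImplicit false

namespace Pool.Agent.SmallMod59

/-- `k = 4` : `p ∣ 4 s (2x - 3) + 1`, `x² - 2 s² = 1`. -/
theorem prime4 (p : ℕ) (hp : p.Prime) (hB : ¬ p ∣ 30) (x s : ℤ) (h : x ^ 2 - 2 * s ^ 2 = 1)
    (hd : (p : ℤ) ∣ 4 * s * (2 * x - 3) + 1) : p % 24 = 1 ∨ p % 24 = 23 := by
  have : Fact p.Prime := ⟨hp⟩
  have h2 : (2 : ZMod p) ≠ 0 := by simpa using cast_ne hB 2 (by norm_num)
  have h3 : (3 : ZMod p) ≠ 0 := by simpa using cast_ne hB 3 (by norm_num)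
  have h5 : (5 : ZMod p) ≠ 0 := by simpa using cast_ne hB 5 (by norm_num)
  have hP : (x : ZMod p) ^ 2 - 2 * (s : ZMod p) ^ 2 = 1 := by
    have := congrArg (Int.cast : ℤ → ZMod p) h
    push_cast at this; exact this
  have hX : 4 * (s : ZMod p) * (2 * (x : ZMod p) - 3) + 1 = 0 := by
    have := (ZMod.intCast_zmod_eq_zero_iff_dvd _ p).mpr hd
    push_cast at this; exact this
  generalize (x : ZMod p) = x at hP hX
  generalize (s : ZMod p) = s at hP hX
  have hab : (x + 2 * s - 2) ^ 2 - 2 * (x - s - 1) ^ 2 = 0 := by linear_combination hX - hP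
  have hb : x - s - 1 ≠ 0 := by
    intro hb
    have ha : x + 2 * s - 2 = 0 := by
      have : (x + 2 * s - 2) ^ 2 = 0 := by rw [hb] at hab; linear_combination hab
      exact pow_eq_zero_iff (two_ne_zero) |>.mp this
    apply h5
    have he : 3 * s - 1 = 0 := by linear_combination ha - hb
    linear_combination 9 * hP - 9 * (2 * (s + 1) + (x - s - 1)) * hb - (4 - (3 * s - 1)) * he
  obtain ⟨w, hw⟩ : ∃ w, w = (x + 2 * s - 2) / (x - s - 1) := ⟨_, rfl⟩
  have hwab : (x + 2 * s - 2) - w * (x - s - 1) = 0 := by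
    rw [hw, div_mul_cancel₀ _ hb, sub_self]
  have hw2 : w ^ 2 = 2 := by
    have h1 : (x - s - 1) ^ 2 * (w ^ 2 - 2) = 0 := by
      have : w * (x - s - 1) = x + 2 * s - 2 := by linear_combination -hwab
      linear_combination hab + (w * (x - s - 1) + (x + 2 * s - 2)) * this
    have := (mul_eq_zero.mp h1).resolve_left (pow_ne_zero _ hb)
    linear_combination this
  have hw0 : w ≠ 0 := by rintro rfl; exact h2 (by linear_combination -hw2)
  have hE : (2 * (x + s * w) - (2 - w)) ^ 2 = 6 := by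
    linear_combination 4 * (x + s * w) * hwab + (4 * (x + s * w) * s - 4 * w * s ^ 2 + 1) * hw2
      + 4 * w * hP
  have hs2 : IsSquare (2 : ZMod p) := ⟨w, by rw [← hw2]; ring⟩
  have hs3 : IsSquare (3 : ZMod p) := by
    refine ⟨(2 * (x + s * w) - (2 - w)) / w, ?_⟩
    field_simp
    rw [hE, hw2]; norm_num
  have r8 := pm_eight h2 hs2
  have r12 := pm_twelve h2 h3 hs3
  omega

/-- `k = 5` : `p ∣ 10 s (2x - 3) + 1`, `x² - 5 s² = 1`. -/
theorem prime5 (p : ℕ) (hp : p.Prime) (hB : ¬ p ∣ 30 * 31) (x s : ℤ) (h : x ^ 2 - 5 * s ^ 2 = 1)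
    (hd : (p : ℤ) ∣ 10 * s * (2 * x - 3) + 1) : p % 30 = 1 ∨ p % 30 = 29 := by
  have : Fact p.Prime := ⟨hp⟩
  have h2 : (2 : ZMod p) ≠ 0 := by simpa using cast_ne hB 2 (by norm_num)
  have h3 : (3 : ZMod p) ≠ 0 := by simpa using cast_ne hB 3 (by norm_num)
  have h5 : (5 : ZMod p) ≠ 0 := by simpa using cast_ne hB 5 (by norm_num)
  have h31 : (31 : ZMod p) ≠ 0 := by simpa using cast_ne hB 31 (by norm_num)
  have hP : (x : ZMod p) ^ 2 - 5 * (s : ZMod p) ^ 2 = 1 := by
    have := congrArg (Int.cast : ℤ → ZMod p) h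
    push_cast at this; exact this
  have hX : 10 * (s : ZMod p) * (2 * (x : ZMod p) - 3) + 1 = 0 := by
    have := (ZMod.intCast_zmod_eq_zero_iff_dvd _ p).mpr hd
    push_cast at this; exact this
  generalize (x : ZMod p) = x at hP hX
  generalize (s : ZMod p) = s at hP hX
  have hab : (2 * x + 10 * s - 5) ^ 2 - 5 * (2 * x - 2 * s - 1) ^ 2 = 0 := by
    linear_combination 4 * hX - 16 * hP
  have hb : 2 * x - 2 * s - 1 ≠ 0 := by
    intro hb
    have ha : 2 * x + 10 * s - 5 = 0 := by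
      have : (2 * x + 10 * s - 5) ^ 2 = 0 := by rw [hb] at hab; linear_combination hab
      exact pow_eq_zero_iff (two_ne_zero) |>.mp this
    apply h31
    have he : 12 * s - 4 = 0 := by linear_combination ha - hb
    linear_combination -36 * hP + 9 * (2 * (2 * s + 1) + (2 * x - 2 * s - 1)) * hb
      - (5 + (12 * s - 4)) * he
  obtain ⟨w, hw⟩ : ∃ w, w = (2 * x + 10 * s - 5) / (2 * x - 2 * s - 1) := ⟨_, rfl⟩
  have hwab : (2 * x + 10 * s - 5) - w * (2 * x - 2 * s - 1) = 0 := by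
    rw [hw, div_mul_cancel₀ _ hb, sub_self]
  have hw2 : w ^ 2 = 5 := by
    have h1 : (2 * x - 2 * s - 1) ^ 2 * (w ^ 2 - 5) = 0 := by
      have : w * (2 * x - 2 * s - 1) = 2 * x + 10 * s - 5 := by linear_combination -hwab
      linear_combination hab + (w * (2 * x - 2 * s - 1) + (2 * x + 10 * s - 5)) * this
    have := (mul_eq_zero.mp h1).resolve_left (pow_ne_zero _ hb)
    linear_combination this
  have hE : (4 * (x + s * w) - (5 - w)) ^ 2 = 30 + 6 * w := by
    linear_combination 8 * (x + s * w) * hwab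
      + (16 * (x + s * w) * s - 16 * w * s ^ 2 + 1) * hw2 + 16 * w * hP
  have h4 : (4 : ZMod p) ≠ 0 := by
    have : (4 : ZMod p) = 2 * 2 := by norm_num
    rw [this]; exact mul_ne_zero h2 h2
  have h8 : (8 : ZMod p) ≠ 0 := by
    have : (8 : ZMod p) = 2 * 4 := by norm_num
    rw [this]; exact mul_ne_zero h2 h4
  obtain ⟨c, hc⟩ : ∃ c, c = (1 - w + (4 * (x + s * w) - (5 - w))) / 4 := ⟨_, rfl⟩
  have hc4 : 4 * (x + s * w) - (5 - w) = 4 * c - 1 + w := by
    rw [hc]; field_simp; ring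
  have hq : 2 * c ^ 2 - (1 - w) * c - 3 - w = 0 := by
    rw [hc4] at hE
    have : 8 * (2 * c ^ 2 - (1 - w) * c - 3 - w) = 0 := by linear_combination hE - hw2
    exact (mul_eq_zero.mp this).resolve_left h8
  have hd3 : 2 * (c ^ 3 - 3 * c) + (1 + w) = 0 := by
    have : 2 * (2 * (c ^ 3 - 3 * c) + (1 + w)) = 0 := by
      linear_combination (2 * c + (1 - w)) * hq + (c - 1) * hw2
    exact (mul_eq_zero.mp this).resolve_left h2
  have hc3 : (c ^ 3 - 3 * c) ^ 2 + (c ^ 3 - 3 * c) - 1 = 0 := by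
    have : 4 * ((c ^ 3 - 3 * c) ^ 2 + (c ^ 3 - 3 * c) - 1) = 0 := by
      linear_combination (2 * (c ^ 3 - 3 * c) - (1 + w) + 2) * hd3 + hw2
    exact (mul_eq_zero.mp this).resolve_left h4
  have hc5 : c ^ 5 - 5 * c ^ 3 + 5 * c + 1 = 0 := by
    have : 4 * (c ^ 5 - 5 * c ^ 3 + 5 * c + 1) = 0 := by
      linear_combination (2 * c ^ 2 - 4) * hd3 - (1 + w) * hq + (c - 1) * hw2
    exact (mul_eq_zero.mp this).resolve_left h4
  have r := pm_fifteen h3 h5 c hc3 hc5
  have hp2 : p ≠ 2 := by rintro rfl; exact h2 (by exact_mod_cast two_self)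
  have hodd : p % 2 = 1 := (hp.eq_two_or_odd).resolve_left hp2
  omega

/-- `k = 6` : `p ∣ 36 s (16 x² - 527) + 1`, `x² - 3 (3959 s)² = 1`. -/
theorem prime6 (p : ℕ) (hp : p.Prime) (hB : ¬ p ∣ 2 * 3 * 773 * 13141 * 1059877) (x s : ℤ)
    (h : x ^ 2 - 3 * (3959 * s) ^ 2 = 1)
    (hd : (p : ℤ) ∣ 36 * s * (16 * x ^ 2 - 527) + 1) : p % 36 = 1 ∨ p % 36 = 35 := by
  have : Fact p.Prime := ⟨hp⟩
  have h2 : (2 : ZMod p) ≠ 0 := by simpa using cast_ne hB 2 (by norm_num)
  have h3 : (3 : ZMod p) ≠ 0 := by simpa using cast_ne hB 3 (by norm_num)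
  have h773 : (773 : ZMod p) ≠ 0 := by simpa using cast_ne hB 773 (by norm_num)
  have h13141 : (13141 : ZMod p) ≠ 0 := by simpa using cast_ne hB 13141 (by norm_num)
  have hbig : (1059877 : ZMod p) ≠ 0 := by simpa using cast_ne hB 1059877 (by norm_num)
  have hP : (x : ZMod p) ^ 2 - 3 * (3959 * (s : ZMod p)) ^ 2 = 1 := by
    have := congrArg (Int.cast : ℤ → ZMod p) h
    push_cast at this; exact this
  have hX : 36 * (s : ZMod p) * (16 * (x : ZMod p) ^ 2 - 527) + 1 = 0 := by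
    have := (ZMod.intCast_zmod_eq_zero_iff_dvd _ p).mpr hd
    push_cast at this; exact this
  generalize (x : ZMod p) = x at hP hX
  generalize (s : ZMod p) = s at hP hX
  obtain ⟨y, hy⟩ : ∃ y, y = 3959 * s := ⟨_, rfl⟩
  rw [← hy] at hP
  have hcub : 1728 * y ^ 3 - 18396 * y + 3959 = 0 := by
    rw [hy] at hP ⊢
    linear_combination 3959 * hX - 36 * 3959 * s * 16 * hP
  have hG : 3 * (498 - 37 * y - 288 * y ^ 2) ^ 2 = 773 ^ 2 * x ^ 2 := by
    linear_combination (37 + 144 * y) * hcub - 773 ^ 2 * hP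
  have hT : (6132 - 7068 * y - 864 * y ^ 2) ^ 3 - 3 * 13141 ^ 2 * (6132 - 7068 * y - 864 * y ^ 2)
      + 13141 ^ 3 = 0 := by
    linear_combination (-170975593 - 70961400 * y - 9160128 * y ^ 2 - 373248 * y ^ 3) * hcub
  have hG0 : (498 - 37 * y - 288 * y ^ 2) ≠ 0 := by
    intro h0
    rw [h0] at hG
    have hx : x = 0 := by
      have : (773 * x) ^ 2 = 0 := by linear_combination -hG
      have := pow_eq_zero_iff (two_ne_zero) |>.mp this
      exact (mul_eq_zero.mp this).resolve_left h773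
    rw [hx] at hP
    apply hbig
    have e1 : 594 - 37 * y = 0 := by linear_combination h0 - 96 * hP
    linear_combination (-37 ^ 2) * hP + 3 * (594 + 37 * y) * e1
  have hs3 : IsSquare (3 : ZMod p) := by
    refine ⟨773 * x / (498 - 37 * y - 288 * y ^ 2), ?_⟩
    rw [div_mul_div_comm, eq_div_iff (mul_ne_zero hG0 hG0)]
    linear_combination hG
  have r12 := pm_twelve h2 h3 hs3
  have r9 := pm_nine h3 ((6132 - 7068 * y - 864 * y ^ 2) / 13141) (by
    field_simp
    linear_combination hT)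
  omega

/-- `k = 7` : `p ∣ 84 s (48 x² - 1273) + 1`, `x² - 21 (10375 s)² = 1`. -/
theorem prime7 (p : ℕ) (hp : p.Prime) (hB : ¬ p ∣ 2 * 3 * 7 * 1763 * 44075 * 6460861) (x s : ℤ)
    (h : x ^ 2 - 21 * (10375 * s) ^ 2 = 1)
    (hd : (p : ℤ) ∣ 84 * s * (48 * x ^ 2 - 1273) + 1) : p % 42 = 1 ∨ p % 42 = 41 := by
  have : Fact p.Prime := ⟨hp⟩
  have h2 : (2 : ZMod p) ≠ 0 := by simpa using cast_ne hB 2 (by norm_num)
  have h3 : (3 : ZMod p) ≠ 0 := by simpa using cast_ne hB 3 (by norm_num)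
  have h7 : (7 : ZMod p) ≠ 0 := by simpa using cast_ne hB 7 (by norm_num)
  have h1763 : (1763 : ZMod p) ≠ 0 := by simpa using cast_ne hB 1763 (by norm_num)
  have h44075 : (44075 : ZMod p) ≠ 0 := by simpa using cast_ne hB 44075 (by norm_num)
  have hbig : (6460861 : ZMod p) ≠ 0 := by simpa using cast_ne hB 6460861 (by norm_num)
  have hP : (x : ZMod p) ^ 2 - 21 * (10375 * (s : ZMod p)) ^ 2 = 1 := by
    have := congrArg (Int.cast : ℤ → ZMod p) h
    push_cast at this; exact this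
  have hX : 84 * (s : ZMod p) * (48 * (x : ZMod p) ^ 2 - 1273) + 1 = 0 := by
    have := (ZMod.intCast_zmod_eq_zero_iff_dvd _ p).mpr hd
    push_cast at this; exact this
  generalize (x : ZMod p) = x at hP hX
  generalize (s : ZMod p) = s at hP hX
  obtain ⟨y, hy⟩ : ∃ y, y = 10375 * s := ⟨_, rfl⟩
  rw [← hy] at hP
  have hcub : 84672 * y ^ 3 - 102900 * y + 10375 = 0 := by
    rw [hy] at hP ⊢
    linear_combination 10375 * hX - 84 * 10375 * s * 48 * hP
  have hG : 21 * (458 - 125 * y - 2016 * y ^ 2) ^ 2 = 1763 ^ 2 * x ^ 2 := by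
    linear_combination (125 + 1008 * y) * hcub - 1763 ^ 2 * hP
  have hT : (59625 - 36540 * y - 91728 * y ^ 2) ^ 3
      + 44075 * (59625 - 36540 * y - 91728 * y ^ 2) ^ 2
      - 2 * 44075 ^ 2 * (59625 - 36540 * y - 91728 * y ^ 2) - 44075 ^ 3 = 0 := by
    linear_combination (4953447625 + 6738186000 * y - 10893158640 * y ^ 2
      - 9115194816 * y ^ 3) * hcub
  have hG0 : (458 - 125 * y - 2016 * y ^ 2) ≠ 0 := by
    intro h0
    rw [h0] at hG
    have hx : x = 0 := by
      have : (1763 * x) ^ 2 = 0 := by linear_combination -hG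
      have := pow_eq_zero_iff (two_ne_zero) |>.mp this
      exact (mul_eq_zero.mp this).resolve_left h1763
    rw [hx] at hP
    apply hbig
    have e1 : 554 - 125 * y = 0 := by linear_combination h0 - 96 * hP
    linear_combination (-125 ^ 2) * hP + 21 * (554 + 125 * y) * e1
  have hs21 : IsSquare (21 : ZMod p) := by
    refine ⟨1763 * x / (458 - 125 * y - 2016 * y ^ 2), ?_⟩
    rw [div_mul_div_comm, eq_div_iff (mul_ne_zero hG0 hG0)]
    linear_combination hG
  have r7 := pm_seven h7 ((59625 - 36540 * y - 91728 * y ^ 2) / 44075) (by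
    field_simp
    linear_combination hT)
  have r21 := pm_twentyone h2 h3 h7 hs21 r7
  have hp2 : p ≠ 2 := by rintro rfl; exact h2 (by exact_mod_cast two_self)
  have hodd : p % 2 = 1 := (hp.eq_two_or_odd).resolve_left hp2
  omega

end Pool.Agent.SmallMod59
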