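import Mathlib
import Pool.Agent.SmallMod59.Primes

set_option autoImplicit false

namespace Pool.Agent.SmallMod59

/-- If all prime factors of `d` are `± 1 mod M`, then `d ≡ ± 1 mod M`. -/
theorem pm_of_primes (M : ℕ) (hM : 1 < M) (d : ℕ) (hd : 0 < d)
    (h : ∀ p : ℕ, p.Prime → p ∣ d → p % M = 1 ∨ p % M = M - 1) :
    (M : ℤ) ∣ (d : ℤ) - 1 ∨ (M : ℤ) ∣ (d : ℤ) + 1 := by
  induction d using Nat.strong_induction_on with
  | _ d ih =>
    by_cases h1 : d = 1
    · left; rw [h1]; simp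
    · have hp := Nat.minFac_prime h1
      obtain ⟨e, he⟩ := Nat.minFac_dvd d
      have he0 : 0 < e := by
        rcases Nat.eq_zero_or_pos e with h0 | h0
        · rw [h0] at he; omega
        · exact h0
      have hlt : e < d := by
        have h2 := hp.two_le
        calc e < 2 * e := by omega
          _ ≤ d.minFac * e := Nat.mul_le_mul_right _ h2
          _ = d := he.symm
      have hi := ih e hlt he0 (fun p hp' hpe => h p hp' (by rw [he]; exact hpe.mul_left _))
      have hq := h d.minFac hp (Nat.minFac_dvd d)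
      have hq' : (M : ℤ) ∣ (d.minFac : ℤ) - 1 ∨ (M : ℤ) ∣ (d.minFac : ℤ) + 1 := by
        have hdm : (d.minFac : ℤ) = M * ((d.minFac / M : ℕ) : ℤ) + ((d.minFac % M : ℕ) : ℤ) := by
          exact_mod_cast (Nat.div_add_mod d.minFac M).symm
        rcases hq with hq | hq
        · left
          rw [hq] at hdm
          exact ⟨((d.minFac / M : ℕ) : ℤ), by rw [hdm]; push_cast; ring⟩
        · right
          rw [hq] at hdm
          refine ⟨((d.minFac / M : ℕ) : ℤ) + 1, ?_⟩
          rw [hdm]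
          push_cast [Nat.cast_sub hM.le]
          ring
      have hde : (d : ℤ) = (d.minFac : ℤ) * e := by exact_mod_cast he
      rw [hde]
      rcases hq' with ⟨a, ha⟩ | ⟨a, ha⟩ <;> rcases hi with ⟨b, hb⟩ | ⟨b, hb⟩
      · left
        have h1 : (d.minFac : ℤ) = M * a + 1 := by linarith
        have h2 : (e : ℤ) = M * b + 1 := by linarith
        exact ⟨a * (M * b) + a + b, by rw [h1, h2]; ring⟩
      · right
        have h1 : (d.minFac : ℤ) = M * a + 1 := by linarith
        have h2 : (e : ℤ) = M * b - 1 := by linarith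
        exact ⟨a * (M * b) - a + b, by rw [h1, h2]; ring⟩
      · right
        have h1 : (d.minFac : ℤ) = M * a - 1 := by linarith
        have h2 : (e : ℤ) = M * b + 1 := by linarith
        exact ⟨a * (M * b) + a - b, by rw [h1, h2]; ring⟩
      · left
        have h1 : (d.minFac : ℤ) = M * a - 1 := by linarith
        have h2 : (e : ℤ) = M * b - 1 := by linarith
        exact ⟨a * (M * b) - a - b, by rw [h1, h2]; ring⟩

/-- The target property of `n`. -/
def Good (k Y n : ℕ) : Prop :=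
  0 < n ∧ ∀ x y : ℤ, 1 ≤ x → 1 ≤ y →
    ((n : ℤ) = 6 * x * y + x + y ∨ (n : ℤ) = 6 * x * y + x - y ∨
      (n : ℤ) = 6 * x * y - x + y ∨ (n : ℤ) = 6 * x * y - x - y) →
    ((k : ℤ) ∣ x ∧ (k : ℤ) ∣ y ∧ (Y : ℤ) < x ∧ (Y : ℤ) < y)

/-- From prime factors to representations. -/
theorem good_of_primes (k Y n : ℕ) (hk : 0 < k) (hn : 0 < n)
    (h : ∀ σ : ℤ, (σ = 1 ∨ σ = -1) → ∀ p : ℕ, p.Prime → (p : ℤ) ∣ 6 * n + σ →
      6 * Y + 6 < p ∧ (p % (6 * k) = 1 ∨ p % (6 * k) = 6 * k - 1)) : Good k Y n := by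
  have main : ∀ (y τ c σ : ℤ), 1 ≤ y → (τ = 1 ∨ τ = -1) → (σ = 1 ∨ σ = -1) →
      6 * (n : ℤ) + σ = (6 * y + τ) * c → (k : ℤ) ∣ y ∧ (Y : ℤ) < y := by
    intro y τ c σ hy hτ hσ heq
    have hdpos : 4 < 6 * y + τ := by rcases hτ with rfl | rfl <;> linarith
    obtain ⟨d, hd⟩ := Int.eq_ofNat_of_zero_le (by linarith : 0 ≤ 6 * y + τ)
    rw [hd] at hdpos heq
    have hpd : ∀ p : ℕ, p.Prime → p ∣ d →
        6 * Y + 6 < p ∧ (p % (6 * k) = 1 ∨ p % (6 * k) = 6 * k - 1) := by
      intro p hp hpd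
      apply h σ hσ p hp
      rw [heq]
      exact (Int.natCast_dvd_natCast.mpr hpd).mul_right _
    have hd1 : d ≠ 1 := by rintro rfl; norm_num at hdpos
    have hd0 : 0 < d := by
      have : (0 : ℤ) < (d : ℤ) := by linarith
      exact_mod_cast this
    constructor
    · have := pm_of_primes (6 * k) (by omega) d hd0 (fun p hp hpd' => (hpd p hp hpd').2)
      rw [← hd] at this
      push_cast at this
      rcases this with ⟨a, ha⟩ | ⟨a, ha⟩
      · have e1 : 6 * y + τ - 1 = 6 * (k * a) := by rw [ha]; ring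
        rcases hτ with rfl | rfl
        · exact ⟨a, by linarith⟩
        · exfalso
          generalize (k : ℤ) * a = t at e1
          omega
      · have e1 : 6 * y + τ + 1 = 6 * (k * a) := by rw [ha]; ring
        rcases hτ with rfl | rfl
        · exfalso
          generalize (k : ℤ) * a = t at e1
          omega
        · exact ⟨a, by linarith⟩
    · have hp := Nat.minFac_prime hd1
      have h1 := (hpd _ hp (Nat.minFac_dvd d)).1
      have h2 : d.minFac ≤ d := Nat.minFac_le hd0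
      have h3 : (6 * (Y : ℤ) + 6) < d := by exact_mod_cast lt_of_lt_of_le h1 h2
      rw [← hd] at h3
      rcases hτ with rfl | rfl <;> linarith
  refine ⟨hn, ?_⟩
  intro x y hx hy hrep
  have key : ∀ τ₁ τ₂ : ℤ, (τ₁ = 1 ∨ τ₁ = -1) → (τ₂ = 1 ∨ τ₂ = -1) →
      6 * (n : ℤ) + τ₁ * τ₂ = (6 * x + τ₁) * (6 * y + τ₂) →
      ((k : ℤ) ∣ x ∧ (k : ℤ) ∣ y ∧ (Y : ℤ) < x ∧ (Y : ℤ) < y) := by
    intro τ₁ τ₂ h1 h2 heq
    have hσ : τ₁ * τ₂ = 1 ∨ τ₁ * τ₂ = -1 := by
      rcases h1 with rfl | rfl <;> rcases h2 with rfl | rfl <;> norm_num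
    have a := main x τ₁ (6 * y + τ₂) (τ₁ * τ₂) hx h1 hσ heq
    have b := main y τ₂ (6 * x + τ₁) (τ₁ * τ₂) hy h2 hσ (by rw [heq]; ring)
    exact ⟨a.1, b.1, a.2, b.2⟩
  rcases hrep with h | h | h | h
  · exact key 1 1 (Or.inl rfl) (Or.inl rfl) (by rw [h]; ring)
  · exact key (-1) 1 (Or.inr rfl) (Or.inl rfl) (by rw [h]; ring)
  · exact key 1 (-1) (Or.inl rfl) (Or.inr rfl) (by rw [h]; ring)
  · exact key (-1) (-1) (Or.inr rfl) (Or.inr rfl) (by rw [h]; ring)

/-- The frame: an odd function `F x s` on the Pell conic `x² - D s² = 1`. -/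
theorem frame (k D B : ℕ) (F : ℤ → ℤ → ℤ) (hk : 0 < k) (hD : ¬ IsSquare D) (hB : 0 < B)
    (hodd : ∀ x s, F x (-s) = - F x s) (hdvd : ∀ x s, s ∣ F x s)
    (hne : ∀ x s, s ≠ 0 → F x s ≠ 0)
    (hprime : ∀ p : ℕ, p.Prime → ¬ p ∣ B → ∀ x s : ℤ, x ^ 2 - D * s ^ 2 = 1 →
      (p : ℤ) ∣ F x s + 1 → p % (6 * k) = 1 ∨ p % (6 * k) = 6 * k - 1)
    (Y : ℕ) : Set.Infinite {n : ℕ | Good k Y n} := by
  rw [Set.infinite_iff_exists_gt]
  intro a
  set N : ℕ := 6 * k * B * (6 * Y + 6).factorial * (a + 1) with hN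
  have hNpos : 0 < N := by
    have := Nat.factorial_pos (6 * Y + 6)
    positivity
  have hD0 : 0 < D := by
    rcases Nat.eq_zero_or_pos D with h | h
    · exact absurd (h ▸ ⟨0, rfl⟩) hD
    · exact h
  have hns : ¬ IsSquare ((D : ℤ) * (N : ℤ) ^ 2) := by
    rintro ⟨r, hr⟩
    apply hD
    have h1 : (N : ℤ) ^ 2 ∣ r ^ 2 := ⟨D, by rw [pow_two, ← hr]; ring⟩
    have h2 : (N : ℤ) ∣ r := (Int.pow_dvd_pow_iff (by norm_num)).mp h1
    obtain ⟨t, ht⟩ := h2
    have h3 : (D : ℤ) = t * t := by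
      have h4 : (N : ℤ) ^ 2 * D = (N : ℤ) ^ 2 * (t * t) := by
        rw [ht] at hr; linear_combination hr
      have h5 : ((N : ℤ) ^ 2) ≠ 0 := by positivity
      exact mul_left_cancel₀ h5 h4
    refine ⟨t.natAbs, ?_⟩
    have : ((D : ℕ) : ℤ) = ((t.natAbs * t.natAbs : ℕ) : ℤ) := by
      rw [h3, Int.natAbs_mul_self]
    exact_mod_cast this
  obtain ⟨x, s', hx, hs'⟩ := Pell.exists_of_not_isSquare (d := (D : ℤ) * (N : ℤ) ^ 2)
    (by positivity) hns
  set s : ℤ := N * s' with hs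
  have hs0 : s ≠ 0 := mul_ne_zero (by exact_mod_cast hNpos.ne') hs'
  have hpell : x ^ 2 - D * s ^ 2 = 1 := by rw [hs]; linear_combination hx
  have hpell' : x ^ 2 - D * (-s) ^ 2 = 1 := by linear_combination hpell
  have hX0 := hne x s hs0
  have hNX : (N : ℤ) ∣ F x s := (Dvd.intro _ rfl : (N : ℤ) ∣ N * s').trans (hdvd x s)
  have h6 : (6 : ℤ) ∣ F x s := by
    refine Dvd.dvd.trans ?_ hNX
    rw [hN]; push_cast
    exact ⟨k * B * (6 * Y + 6).factorial * (a + 1), by ring⟩
  -- choose `n`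
  have h6' : 6 ∣ (F x s).natAbs := by
    have := Int.natAbs_dvd_natAbs.mpr h6
    simpa using this
  obtain ⟨n, hn⟩ := h6'
  have hXabs : 0 < (F x s).natAbs := Int.natAbs_pos.mpr hX0
  have hn0 : 0 < n := by omega
  have hNle : N ≤ (F x s).natAbs := by
    apply Nat.le_of_dvd hXabs
    have := Int.natAbs_dvd_natAbs.mpr hNX
    simpa using this
  have han : a < n := by
    have h1 : 6 * (a + 1) ≤ N := by
      have h2 : 6 * (a + 1) ∣ N := ⟨k * B * (6 * Y + 6).factorial, by rw [hN]; ring⟩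
      exact Nat.le_of_dvd hNpos h2
    omega
  refine ⟨n, ?_, han⟩
  apply good_of_primes k Y n hk hn0
  have hor : (6 * (n : ℤ) = F x s) ∨ (6 * (n : ℤ) = - F x s) := by
    have : (6 * (n : ℤ)) = ((F x s).natAbs : ℤ) := by rw [hn]; push_cast; ring
    rw [this]
    rcases Int.natAbs_eq (F x s) with h | h
    · left; exact h.symm
    · right; omega
  intro σ hσ p hp hpd
  -- `p` does not divide `N`
  have hpN : ¬ p ∣ N := by
    intro hd
    have h1 : (p : ℤ) ∣ F x s := (Int.natCast_dvd_natCast.mpr hd).trans hNX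
    have h2 : (p : ℤ) ∣ 6 * n := by
      rcases hor with h | h
      · rw [h]; exact h1
      · rw [h]; exact (dvd_neg.mpr h1)
    have h3 : (p : ℤ) ∣ σ := (Int.dvd_add_right h2).mp hpd
    have h4 : (p : ℤ) ∣ 1 := by
      rcases hσ with rfl | rfl
      · exact h3
      · exact (dvd_neg.mp h3)
    have h5 : p ∣ 1 := by exact_mod_cast h4
    exact hp.one_lt.ne' (Nat.dvd_one.mp h5)
  constructor
  · by_contra hle
    apply hpN
    have : p ∣ (6 * Y + 6).factorial := (hp.dvd_factorial).mpr (by omega)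
    rw [hN]
    exact (this.mul_left _).mul_right _
  · have hpB : ¬ p ∣ B := by
      intro h
      apply hpN
      rw [hN]
      exact ((h.mul_left _).mul_right _).mul_right _
    have hcase : (p : ℤ) ∣ F x s + 1 ∨ (p : ℤ) ∣ F x (-s) + 1 := by
      rw [hodd]
      rcases hor with h | h <;> rcases hσ with rfl | rfl
      · left; rw [← h]; exact hpd
      · right
        rw [← h]
        have := dvd_neg.mpr hpd
        have e : -(6 * (n : ℤ) + -1) = -(6 * (n : ℤ)) + 1 := by ring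
        rwa [e] at this
      · right; rw [← h]; exact hpd
      · left
        have := dvd_neg.mpr hpd
        have e : -(6 * (n : ℤ) + -1) = F x s + 1 := by rw [h]; ring
        rwa [e] at this
    rcases hcase with h | h
    · exact hprime p hp hpB x s hpell h
    · exact hprime p hp hpB x (-s) hpell' h

end Pool.Agent.SmallMod59
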